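import Mathlib

/-!
# Wilf-equivalence of `{45123, 45213}` and `{12345, 12354}`

The method is the one of Backelin, West and Xin, applied to sets of patterns. For a family of
patterns `Γ` the cells with an occurrence of a member of `Γ` strictly above and to the right form a
Ferrers board. The points of the permutation in the board can be rearranged in the board, and
the number of rearrangements with fewer than `k` smaller entries to the left of every entry is the
number of rearrangements with fewer than `k` smaller entries to the right of every entry in the board.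
-/

set_option autoImplicit false

open Finset

namespace Pool.Agent.Results.MP_b2be16_co.WilfEquivalence

/-- The permutation `π` of `{0, ..., n - 1}` contains the pattern with the (distinct) letters
`p 0, ..., p (k - 1)`. -/
def Contains {k n : ℕ} (p : Fin k → ℕ) (π : Equiv.Perm (Fin n)) : Prop :=
  ∃ f : Fin k → Fin n, StrictMono f ∧ ∀ a b, π (f a) < π (f b) ↔ p a < p b

/-- The number of permutations of `{0, ..., n - 1}` that avoid both patterns `p` and `q`. -/
noncomputable def avoiders {k : ℕ} (n : ℕ) (p q : Fin k → ℕ) : ℕ :=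
  Nat.card {π : Equiv.Perm (Fin n) // ¬ Contains p π ∧ ¬ Contains q π}

/-! ### The board -/

section Board

variable {n : ℕ}

/-- The cell `(i, j)` has an occurrence (in the sense of `Occ`) strictly above and to the right. -/
def W (Occ : Equiv.Perm (Fin n) → Finset (Fin n) → Prop) (π : Equiv.Perm (Fin n))
    (i j : Fin n) : Prop :=
  ∃ S : Finset (Fin n), S.Nonempty ∧ Occ π S ∧ ∀ x ∈ S, i < x ∧ j < π x

/-- `Occ π S` depends only on the values of `π` on `S` -/
def Loc (Occ : Equiv.Perm (Fin n) → Finset (Fin n) → Prop) : Prop :=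
  ∀ (π π' : Equiv.Perm (Fin n)) (S : Finset (Fin n)), (∀ x ∈ S, π x = π' x) → Occ π S → Occ π' S

variable {Occ : Equiv.Perm (Fin n) → Finset (Fin n) → Prop}

theorem W_mono {π : Equiv.Perm (Fin n)} {i j i' j' : Fin n} (h : W Occ π i j) (hi : i' ≤ i)
    (hj : j' ≤ j) : W Occ π i' j' := by
  obtain ⟨S, h1, h2, h3⟩ := h
  exact ⟨S, h1, h2, fun x hx => ⟨lt_of_le_of_lt hi (h3 x hx).1, lt_of_le_of_lt hj (h3 x hx).2⟩⟩

/-- an occurrence with the first column as large as possible -/
theorem exists_max {π : Equiv.Perm (Fin n)} {i j : Fin n} (h : W Occ π i j) :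
    ∃ S : Finset (Fin n), S.Nonempty ∧ Occ π S ∧ (∀ x ∈ S, i < x ∧ j < π x) ∧
      ∀ x ∈ S, ¬ W Occ π x (π x) := by
  classical
  -- choose a pair (S, m) with `m ∈ S` the minimum, maximal
  obtain ⟨S0, hS0⟩ := h
  let P : Fin n → Prop := fun m => ∃ S : Finset (Fin n), m ∈ S ∧ (∀ x ∈ S, m ≤ x) ∧ Occ π S ∧
    ∀ x ∈ S, i < x ∧ j < π x
  have hne : (univ.filter P).Nonempty := by
    refine ⟨S0.min' hS0.1, ?_⟩
    simp only [mem_filter, mem_univ, true_and, P]
    exact ⟨S0, S0.min'_mem hS0.1, fun x hx => S0.min'_le x hx, hS0.2.1, hS0.2.2⟩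
  obtain ⟨m, hm, hmax⟩ := (univ.filter P).exists_max_image id hne
  simp only [mem_filter, mem_univ, true_and, P, id] at hm hmax
  obtain ⟨S, hmS, hmin, hocc, hS⟩ := hm
  refine ⟨S, ⟨m, hmS⟩, hocc, hS, fun x hx hW => ?_⟩
  obtain ⟨S', hne', hocc', hS'⟩ := hW
  have hx' := hS x hx
  have h1 : S'.min' hne' ≤ m := by
    apply hmax
    refine ⟨S', S'.min'_mem hne', fun y hy => S'.min'_le y hy, hocc', fun y hy => ?_⟩
    exact ⟨hx'.1.trans (hS' y hy).1, hx'.2.trans (hS' y hy).2⟩
  have h2 : x < S'.min' hne' := (hS' _ (S'.min'_mem hne')).1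
  exact absurd (hmin x hx) (not_le.2 (lt_of_lt_of_le h2 h1))

/-- rearranging the points in the board does not change the board -/
theorem W_eq (hloc : Loc Occ) {π π' : Equiv.Perm (Fin n)}
    (hb : ∀ c, ¬ W Occ π c (π c) → π' c = π c) (hw : ∀ c, W Occ π c (π c) → W Occ π c (π' c))
    (i j : Fin n) : W Occ π' i j ↔ W Occ π i j := by
  have h1 : ∀ i j, W Occ π i j → W Occ π' i j := by
    intro i j h
    obtain ⟨S, hne, hocc, hS, hbl⟩ := exists_max h
    have e : ∀ x ∈ S, π x = π' x := fun x hx => (hb x (hbl x hx)).symm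
    exact ⟨S, hne, hloc _ _ _ e hocc, fun x hx => ⟨(hS x hx).1, (e x hx) ▸ (hS x hx).2⟩⟩
  refine ⟨fun h => ?_, h1 i j⟩
  obtain ⟨S, hne, hocc, hS, hbl⟩ := exists_max h
  have hbl' : ∀ x ∈ S, ¬ W Occ π x (π x) := by
    intro x hx hW
    exact hbl x hx (h1 _ _ (hw x hW))
  have e : ∀ x ∈ S, π' x = π x := fun x hx => hb x (hbl' x hx)
  exact ⟨S, hne, hloc _ _ _ e hocc, fun x hx => ⟨(hS x hx).1, (e x hx) ▸ (hS x hx).2⟩⟩

end Board

/-! ### Counting the rearrangements in a board -/

section Count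

variable {n : ℕ}

theorem card_rank_lt (S : Finset (Fin n)) (k : ℕ) :
    (S.filter fun c => (S.filter (· < c)).card < k).card = min k S.card := by
  classical
  refine Finset.induction_on_max S ?_ ?_
  · simp
  · intro a s ha ih
    have hna : a ∉ s := fun h => lt_irrefl _ (ha a h)
    have h1 : (insert a s).filter (fun c => ((insert a s).filter (· < c)).card < k) =
        if s.card < k then insert a (s.filter fun c => (s.filter (· < c)).card < k)
        else s.filter fun c => (s.filter (· < c)).card < k := by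
      have e1 : (insert a s).filter (· < a) = s := by
        ext x
        simp only [mem_filter, mem_insert]
        constructor
        · rintro ⟨rfl | h, h'⟩
          · exact absurd h' (lt_irrefl _)
          · exact h
        · intro h
          exact ⟨Or.inr h, ha x h⟩
      have e2 : ∀ c ∈ s, (insert a s).filter (· < c) = s.filter (· < c) := by
        intro c hc
        ext x
        simp only [mem_filter, mem_insert]
        constructor
        · rintro ⟨rfl | h, h'⟩
          · exact absurd (ha c hc) (not_lt.2 h'.le)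
          · exact ⟨h, h'⟩
        · rintro ⟨h, h'⟩
          exact ⟨Or.inr h, h'⟩
      rw [filter_insert, e1]
      have e3 : s.filter (fun c => ((insert a s).filter (· < c)).card < k) =
          s.filter fun c => (s.filter (· < c)).card < k := by
        apply filter_congr
        intro c hc
        rw [e2 c hc]
      rw [e3]
    rw [h1, card_insert_of_notMem hna]
    split_ifs with h
    · rw [card_insert_of_notMem (fun h' => hna (mem_filter.1 h').1), ih]
      omega
    · rw [ih]
      omega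

theorem card_rank_gt (S : Finset (Fin n)) (k : ℕ) :
    (S.filter fun c => (S.filter (c < ·)).card < k).card = min k S.card := by
  classical
  refine Finset.induction_on_min S ?_ ?_
  · simp
  · intro a s ha ih
    have hna : a ∉ s := fun h => lt_irrefl _ (ha a h)
    have e1 : (insert a s).filter (a < ·) = s := by
      ext x
      simp only [mem_filter, mem_insert]
      constructor
      · rintro ⟨rfl | h, h'⟩
        · exact absurd h' (lt_irrefl _)
        · exact h
      · intro h
        exact ⟨Or.inr h, ha x h⟩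
    have e2 : ∀ c ∈ s, (insert a s).filter (c < ·) = s.filter (c < ·) := by
      intro c hc
      ext x
      simp only [mem_filter, mem_insert]
      constructor
      · rintro ⟨rfl | h, h'⟩
        · exact absurd (ha c hc) (not_lt.2 h'.le)
        · exact ⟨h, h'⟩
      · rintro ⟨h, h'⟩
        exact ⟨Or.inr h, h'⟩
    have h1 : (insert a s).filter (fun c => ((insert a s).filter (c < ·)).card < k) =
        if s.card < k then insert a (s.filter fun c => (s.filter (c < ·)).card < k)
        else s.filter fun c => (s.filter (c < ·)).card < k := by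
      rw [filter_insert, e1]
      have e3 : s.filter (fun c => ((insert a s).filter (c < ·)).card < k) =
          s.filter fun c => (s.filter (c < ·)).card < k := by
        apply filter_congr
        intro c hc
        rw [e2 c hc]
      rw [e3]
    rw [h1, card_insert_of_notMem hna]
    split_ifs with h
    · rw [card_insert_of_notMem (fun h' => hna (mem_filter.1 h').1), ih]
      omega
    · rw [ih]
      omega

/-- counting the functions that are built one value after another, from the last index to the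
first, when the number of choices for each value does not depend on the earlier choices -/
theorem tree_card {α : Type} [Finite α] [Nonempty α] : ∀ (n : ℕ) (P : Fin n → (Fin n → α) → Prop)
    (m : Fin n → ℕ), (∀ i f g, (∀ j, i ≤ j → f j = g j) → P i f → P i g) →
    (∀ i f, (∀ j, i < j → P j f) → Nat.card {a : α // P i (Function.update f i a)} = m i) →
    Nat.card {f : Fin n → α // ∀ i, P i f} = ∏ i, m i := by
  intro n
  induction n with
  | zero =>
    intro P m _ _
    rw [Finset.univ_eq_empty, Finset.prod_empty, Nat.card_eq_one_iff_unique]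
    exact ⟨⟨fun a b => Subtype.ext (Subsingleton.elim _ _)⟩, ⟨⟨Fin.elim0, fun i => i.elim0⟩⟩⟩
  | succ n ih =>
    intro P m hloc hcard
    obtain ⟨a0⟩ := (inferInstance : Nonempty α)
    have h := ih (fun i f' => P i.succ (Fin.cons a0 f')) (fun i => m i.succ) ?_ ?_
    · have hP : ∀ (a : α) (f' : Fin n → α) (i : Fin n),
          P i.succ (Fin.cons a f' : Fin (n + 1) → α) ↔ P i.succ (Fin.cons a0 f') := by
        intro a f' i
        constructor
        · apply hloc
          intro j hj
          obtain ⟨j', rfl⟩ := Fin.exists_succ_eq.2 (Fin.ne_zero_of_lt (lt_of_lt_of_le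
            (Fin.succ_pos i) hj))
          simp
        · apply hloc
          intro j hj
          obtain ⟨j', rfl⟩ := Fin.exists_succ_eq.2 (Fin.ne_zero_of_lt (lt_of_lt_of_le
            (Fin.succ_pos i) hj))
          simp
      let e : {f : Fin (n + 1) → α // ∀ i, P i f} ≃
          Σ f' : {f' : Fin n → α // ∀ i : Fin n, P i.succ (Fin.cons a0 f')},
            {a : α // P 0 (Fin.cons a f'.1 : Fin (n + 1) → α)} :=
        { toFun := fun f => ⟨⟨Fin.tail f.1, fun i => by
              rw [← hP (f.1 0), Fin.cons_self_tail]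
              exact f.2 _⟩, ⟨f.1 0, by
              simp only [Fin.cons_self_tail]
              exact f.2 0⟩⟩
          invFun := fun x => ⟨Fin.cons x.2.1 x.1.1, fun i => by
              refine Fin.cases ?_ (fun i => ?_) i
              · exact x.2.2
              · rw [hP]
                exact x.1.2 i⟩
          left_inv := by
            rintro ⟨f, hf⟩
            simp
          right_inv := by
            rintro ⟨⟨f', hf'⟩, ⟨a, ha⟩⟩
            rfl }
      have : Fintype {f' : Fin n → α // ∀ i : Fin n, P i.succ (Fin.cons a0 f')} :=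
        Fintype.ofFinite _
      rw [Nat.card_congr e, Nat.card_sigma]
      have h0 : ∀ f' : {f' : Fin n → α // ∀ i : Fin n, P i.succ (Fin.cons a0 f')},
          Nat.card {a : α // P 0 (Fin.cons a f'.1 : Fin (n + 1) → α)} = m 0 := by
        intro f'
        rw [← hcard 0 (Fin.cons a0 f'.1)]
        · simp only [Fin.update_cons_zero]
        · intro j hj
          obtain ⟨j', rfl⟩ := Fin.exists_succ_eq.2 (Fin.ne_zero_of_lt hj)
          exact f'.2 j'
      rw [Finset.sum_congr rfl (fun f' _ => h0 f'), Finset.sum_const, Finset.card_univ,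
        ← Nat.card_eq_fintype_card, h, Fin.prod_univ_succ, smul_eq_mul, mul_comm]
    · intro i f g hfg
      apply hloc
      intro j hj
      obtain ⟨j', rfl⟩ := Fin.exists_succ_eq.2 (Fin.ne_zero_of_lt (lt_of_lt_of_le
        (Fin.succ_pos i) hj))
      simp only [Fin.cons_succ]
      exact hfg j' (Fin.succ_le_succ_iff.1 hj)
    · intro i f hf
      rw [← hcard i.succ (Fin.cons a0 f)]
      · simp only [Fin.cons_update]
      · intro j hj
        obtain ⟨j', rfl⟩ := Fin.exists_succ_eq.2 (Fin.ne_zero_of_lt hj)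
        exact hf j' (Fin.succ_lt_succ_iff.1 hj)

end Count

/-! ### The rearrangements of one permutation -/

section Fiber

variable {n : ℕ} {Occ : Equiv.Perm (Fin n) → Finset (Fin n) → Prop}

/-- the points outside of the board -/
noncomputable def key (Occ : Equiv.Perm (Fin n) → Finset (Fin n) → Prop) (π : Equiv.Perm (Fin n)) :
    Fin n → Option (Fin n) := by
  classical
  exact fun c => if W Occ π c (π c) then none else some (π c)

/-- every entry `π c` in the board has fewer than `k` smaller entries `π c'` for which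
`rel c' c` and the cell `(c', π c)` is in the board -/
def Good (Occ : Equiv.Perm (Fin n) → Finset (Fin n) → Prop) (rel : Fin n → Fin n → Prop) (k : ℕ)
    (π : Equiv.Perm (Fin n)) : Prop :=
  ∀ c, W Occ π c (π c) → Nat.card {c' : Fin n // rel c' c ∧ π c' < π c ∧ W Occ π c' (π c)} < k

theorem key_eq_iff (hloc : Loc Occ) {π0 π : Equiv.Perm (Fin n)} :
    key Occ π = key Occ π0 ↔ (∀ c, ¬ W Occ π0 c (π0 c) → π c = π0 c) ∧
      ∀ c, W Occ π0 c (π0 c) → W Occ π0 c (π c) := by
  classical
  constructor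
  · intro h
    have h1 : ∀ c, (W Occ π c (π c) ↔ W Occ π0 c (π0 c)) ∧
        (¬ W Occ π0 c (π0 c) → π c = π0 c) := by
      intro c
      have hc := congrFun h c
      unfold key at hc
      by_cases h1 : W Occ π c (π c) <;> by_cases h2 : W Occ π0 c (π0 c) <;>
        simp_all
    -- the boards are equal
    have hW : ∀ i j, W Occ π i j ↔ W Occ π0 i j := by
      have key1 : ∀ {σ τ : Equiv.Perm (Fin n)}, (∀ c, ¬ W Occ σ c (σ c) → σ c = τ c) →
          ∀ i j, W Occ σ i j → W Occ τ i j := by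
        intro σ τ hστ i j hij
        obtain ⟨S, hne, hocc, hS, hbl⟩ := exists_max hij
        have e : ∀ x ∈ S, σ x = τ x := fun x hx => hστ x (hbl x hx)
        exact ⟨S, hne, hloc _ _ _ e hocc, fun x hx => ⟨(hS x hx).1, (e x hx) ▸ (hS x hx).2⟩⟩
      intro i j
      constructor
      · apply key1
        intro c hc
        exact (h1 c).2 (fun h' => hc ((h1 c).1.2 h'))
      · apply key1
        intro c hc
        exact ((h1 c).2 hc).symm
    refine ⟨fun c hc => (h1 c).2 hc, fun c hc => ?_⟩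
    rw [← hW]
    exact (h1 c).1.2 hc
  · rintro ⟨hb, hw⟩
    have hW := W_eq hloc hb hw
    funext c
    unfold key
    by_cases h2 : W Occ π0 c (π0 c)
    · have h3 : W Occ π c (π c) := (hW _ _).2 (hw c h2)
      simp [h2, h3]
    · have h3 : ¬ W Occ π c (π c) := by
        rw [hW, hb c h2]
        exact h2
      rw [if_neg h2, if_neg h3, hb c h2]

/-- the columns of the points in the board of `π0` that are still free in row `r` when the
points in higher rows have been placed by `ρ` -/
noncomputable def Free (Occ : Equiv.Perm (Fin n) → Finset (Fin n) → Prop) (π0 : Equiv.Perm (Fin n))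
    (r : Fin n) (ρ : Fin n → Fin n) : Finset (Fin n) := by
  classical
  exact univ.filter fun c => W Occ π0 c r ∧ W Occ π0 c (π0 c) ∧ ∀ r', r < r' → ρ r' ≠ c

theorem mem_Free {π0 : Equiv.Perm (Fin n)} {r : Fin n} {ρ : Fin n → Fin n} {c : Fin n} :
    c ∈ Free Occ π0 r ρ ↔ W Occ π0 c r ∧ W Occ π0 c (π0 c) ∧ ∀ r', r < r' → ρ r' ≠ c := by
  classical
  simp [Free]

/-- the conditions on the columns of the points, row by row from the top -/
def Step (Occ : Equiv.Perm (Fin n) → Finset (Fin n) → Prop) (rel : Fin n → Fin n → Prop) (k : ℕ)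
    (π0 : Equiv.Perm (Fin n)) (r : Fin n) (ρ : Fin n → Fin n) : Prop :=
  (W Occ π0 (π0.symm r) r → ρ r ∈ Free Occ π0 r ρ ∧
    Nat.card {c' : Fin n // c' ∈ Free Occ π0 r ρ ∧ rel c' (ρ r)} < k) ∧
  (¬ W Occ π0 (π0.symm r) r → ρ r = π0.symm r)

theorem step_inj {rel : Fin n → Fin n → Prop} {k : ℕ} {π0 : Equiv.Perm (Fin n)}
    {ρ : Fin n → Fin n} {r r' : Fin n} (h : r < r') (h1 : Step Occ rel k π0 r ρ)
    (h2 : Step Occ rel k π0 r' ρ) : ρ r ≠ ρ r' := by
  intro he
  by_cases hw : W Occ π0 (π0.symm r) r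
  · exact (mem_Free.1 (h1.1 hw).1).2.2 r' h he.symm
  · by_cases hw' : W Occ π0 (π0.symm r') r'
    · have h3 := (mem_Free.1 (h2.1 hw').1).2.1
      rw [← he, h1.2 hw, Equiv.apply_symm_apply] at h3
      exact hw h3
    · rw [h1.2 hw, h2.2 hw'] at he
      exact h.ne (π0.symm.injective he)

/-- the number of rearrangements that keep the key and are good -/
theorem card_fiber (hloc : Loc Occ) (rel : Fin n → Fin n → Prop) (hrel : ∀ c, ¬ rel c c) (k : ℕ)
    (π0 : Equiv.Perm (Fin n)) :
    Nat.card {π : Equiv.Perm (Fin n) // key Occ π = key Occ π0 ∧ Good Occ rel k π} =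
      Nat.card {ρ : Fin n → Fin n // ∀ r, Step Occ rel k π0 r ρ} := by
  classical
  -- the condition on `π` in terms of its inverse
  have main : ∀ π : Equiv.Perm (Fin n), (key Occ π = key Occ π0 ∧ Good Occ rel k π) ↔
      ∀ r, Step Occ rel k π0 r π.symm := by
    intro π
    have hfree : (∀ c, ¬ W Occ π0 c (π0 c) → π c = π0 c) → ∀ c c' : Fin n,
        (c' ∈ Free Occ π0 (π c) π.symm ↔ (π c' ≤ π c ∧ W Occ π0 c' (π c))) := by
      intro hb c c'
      rw [mem_Free]
      constructor
      · rintro ⟨h1, h2, h3⟩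
        refine ⟨?_, h1⟩
        by_contra hlt
        exact h3 (π c') (not_le.1 hlt) (by simp)
      · rintro ⟨h1, h2⟩
        refine ⟨h2, ?_, ?_⟩
        · by_contra hn
          have := W_mono h2 le_rfl h1
          rw [hb c' hn] at this
          exact hn this
        · rintro r' hr' rfl
          rw [Equiv.apply_symm_apply] at h1
          exact absurd h1 (not_le.2 hr')
    have hgood : (∀ c, ¬ W Occ π0 c (π0 c) → π c = π0 c) → (∀ i j, W Occ π i j ↔ W Occ π0 i j) →
        ∀ c, Nat.card {c' : Fin n // rel c' c ∧ π c' < π c ∧ W Occ π c' (π c)} =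
          Nat.card {c' : Fin n // c' ∈ Free Occ π0 (π c) π.symm ∧ rel c' c} := by
      intro hb hW c
      apply Nat.card_congr
      apply Equiv.subtypeEquivRight
      intro c'
      rw [hfree hb, hW]
      constructor
      · rintro ⟨h1, h2, h3⟩
        exact ⟨⟨h2.le, h3⟩, h1⟩
      · rintro ⟨⟨h2, h3⟩, h1⟩
        refine ⟨h1, lt_of_le_of_ne h2 ?_, h3⟩
        intro he
        have := π.injective he
        subst this
        exact hrel _ h1
    constructor
    · rintro ⟨hk, hg⟩ r
      obtain ⟨hb, hw⟩ := (key_eq_iff hloc).1 hk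
      have hW := W_eq hloc hb hw
      obtain ⟨c, rfl⟩ := π.surjective r
      rw [Step, Equiv.symm_apply_apply]
      constructor
      · intro hwr
        have hc : W Occ π0 c (π c) := by
          by_cases h0 : W Occ π0 c (π0 c)
          · exact hw c h0
          · have := hb c h0
            rw [this, Equiv.symm_apply_apply] at hwr
            exact absurd hwr h0
        refine ⟨(hfree hb c c).2 ⟨le_rfl, hc⟩, ?_⟩
        rw [← hgood hb hW]
        exact hg c ((hW _ _).2 hc)
      · intro hwr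
        -- the row is black: the column `π0.symm (π c)` is black, so `π` agrees with `π0` there
        have h1 : π (π0.symm (π c)) = π c := by
          rw [hb (π0.symm (π c)) (by rwa [Equiv.apply_symm_apply]), Equiv.apply_symm_apply]
        exact (π.injective h1).symm
    · intro hstep
      have hb : ∀ c, ¬ W Occ π0 c (π0 c) → π c = π0 c := by
        intro c hc
        have h1 := (hstep (π0 c)).2 (by rwa [Equiv.symm_apply_apply])
        rw [Equiv.symm_apply_apply, Equiv.symm_apply_eq] at h1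
        exact h1.symm
      have hw : ∀ c, W Occ π0 c (π0 c) → W Occ π0 c (π c) := by
        intro c hc
        have h1 := hstep (π c)
        rw [Step, Equiv.symm_apply_apply] at h1
        by_cases h2 : W Occ π0 (π0.symm (π c)) (π c)
        · exact (mem_Free.1 (h1.1 h2).1).1
        · have h3 := h1.2 h2
          have h4 : π0 c = π c := by
            rw [← Equiv.apply_symm_apply π0 (π c), ← h3]
          rw [← h3, ← h4] at h2
          exact absurd hc h2
      have hW := W_eq hloc hb hw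
      refine ⟨(key_eq_iff hloc).2 ⟨hb, hw⟩, ?_⟩
      intro c hc
      rw [hgood hb hW]
      have h1 := hstep (π c)
      rw [Step, Equiv.symm_apply_apply] at h1
      refine (h1.1 ?_).2
      by_contra h2
      have h3 := h1.2 h2
      rw [← h3] at h2
      exact h2 ((hW _ _).1 hc)
  refine Nat.card_eq_of_bijective (fun π => ⟨π.1.symm, (main π.1).1 π.2⟩) ⟨?_, ?_⟩
  · rintro ⟨π, hπ⟩ ⟨σ, hσ⟩ h
    have h1 : (π.symm : Fin n → Fin n) = σ.symm := congrArg Subtype.val h
    apply Subtype.ext
    have h2 : π.symm = σ.symm := Equiv.ext (congrFun h1)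
    calc π = π.symm.symm := rfl
      _ = σ.symm.symm := by rw [h2]
      _ = σ := rfl
  · rintro ⟨ρ, hρ⟩
    have hinj : Function.Injective ρ := by
      intro r r' he
      rcases lt_trichotomy r r' with h | h | h
      · exact absurd he (step_inj h (hρ r) (hρ r'))
      · exact h
      · exact absurd he.symm (step_inj h (hρ r') (hρ r))
    let σ : Equiv.Perm (Fin n) := Equiv.ofBijective ρ (Finite.injective_iff_bijective.1 hinj)
    have hσ : (σ.symm.symm : Fin n → Fin n) = ρ := rfl
    refine ⟨⟨σ.symm, (main σ.symm).2 ?_⟩, ?_⟩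
    · rw [hσ]
      exact hρ
    · apply Subtype.ext
      rfl

/-- the number of choices in a row -/
noncomputable def choices (Occ : Equiv.Perm (Fin n) → Finset (Fin n) → Prop) (k : ℕ)
    (π0 : Equiv.Perm (Fin n)) (r : Fin n) : ℕ := by
  classical
  exact if W Occ π0 (π0.symm r) r then
    min k ((univ.filter fun c => W Occ π0 c r ∧ W Occ π0 c (π0 c)).card -
      (univ.filter fun r' => r < r' ∧ W Occ π0 (π0.symm r') r').card)
  else 1

theorem card_step (rel : Fin n → Fin n → Prop)
    (hrank : ∀ (S : Finset (Fin n)) (k : ℕ),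
      Nat.card {c : Fin n // c ∈ S ∧ Nat.card {c' : Fin n // c' ∈ S ∧ rel c' c} < k} = min k S.card)
    (k : ℕ) (π0 : Equiv.Perm (Fin n)) :
    Nat.card {ρ : Fin n → Fin n // ∀ r, Step Occ rel k π0 r ρ} =
      ∏ r, choices Occ k π0 r := by
  classical
  rcases Nat.eq_zero_or_pos n with hn | hn
  · subst hn
    rw [Finset.univ_eq_empty, Finset.prod_empty, Nat.card_eq_one_iff_unique]
    exact ⟨⟨fun a b => Subtype.ext (Subsingleton.elim _ _)⟩, ⟨⟨Fin.elim0, fun i => i.elim0⟩⟩⟩
  have : Nonempty (Fin n) := ⟨⟨0, hn⟩⟩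
  have hfree : ∀ (r : Fin n) (f g : Fin n → Fin n), (∀ j, r < j → f j = g j) →
      Free Occ π0 r f = Free Occ π0 r g := by
    intro r f g h
    ext c
    rw [mem_Free, mem_Free]
    have : (∀ r', r < r' → f r' ≠ c) ↔ ∀ r', r < r' → g r' ≠ c := by
      constructor
      · intro h1 r' hr'
        rw [← h r' hr']
        exact h1 r' hr'
      · intro h1 r' hr'
        rw [h r' hr']
        exact h1 r' hr'
    rw [this]
  apply tree_card
  · intro r f g h hf
    unfold Step at hf ⊢
    rw [← hfree r f g (fun j hj => h j hj.le), ← h r le_rfl]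
    exact hf
  · intro r f hf
    have e1 : ∀ a : Fin n, Free Occ π0 r (Function.update f r a) = Free Occ π0 r f := by
      intro a
      apply hfree
      intro j hj
      rw [Function.update_of_ne hj.ne']
    unfold Step choices
    simp only [e1, Function.update_self]
    by_cases hw : W Occ π0 (π0.symm r) r
    · simp only [hw, not_true_eq_false, false_imp_iff, and_true, true_imp_iff, if_true]
      rw [hrank]
      congr 1
      -- the number of free columns
      have hsub : (univ.filter fun r' => r < r' ∧ W Occ π0 (π0.symm r') r').image f ⊆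
          univ.filter fun c => W Occ π0 c r ∧ W Occ π0 c (π0 c) := by
        intro c hc
        obtain ⟨r', hr', rfl⟩ := mem_image.1 hc
        simp only [mem_filter, mem_univ, true_and] at hr' ⊢
        have h1 := mem_Free.1 ((hf r' hr'.1).1 hr'.2).1
        exact ⟨W_mono h1.1 le_rfl hr'.1.le, h1.2.1⟩
      have hinj : Set.InjOn f (univ.filter fun r' => r < r' ∧ W Occ π0 (π0.symm r') r') := by
        intro x hx y hy he
        simp only [coe_filter, mem_univ, true_and, Set.mem_ofPred_eq] at hx hy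
        rcases lt_trichotomy x y with h | h | h
        · exact absurd he (step_inj h (hf x hx.1) (hf y hy.1))
        · exact h
        · exact absurd he.symm (step_inj h (hf y hy.1) (hf x hx.1))
      rw [← card_image_of_injOn hinj, ← card_sdiff_of_subset hsub]
      congr 1
      ext c
      simp only [mem_Free, mem_sdiff, mem_filter, mem_univ, true_and, mem_image, not_exists,
        not_and, and_imp]
      constructor
      · rintro ⟨h1, h2, h3⟩
        exact ⟨⟨h1, h2⟩, fun r' hr' _ => h3 r' hr'⟩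
      · rintro ⟨⟨h1, h2⟩, h3⟩
        refine ⟨h1, h2, fun r' hr' => ?_⟩
        by_cases h4 : W Occ π0 (π0.symm r') r'
        · exact h3 r' hr' h4
        · rw [(hf r' hr').2 h4]
          rintro rfl
          rw [Equiv.apply_symm_apply] at h2
          exact h4 h2
    · simp only [hw, not_false_eq_true, false_imp_iff, true_imp_iff, true_and, if_false]
      rw [Nat.card_eq_one_iff_unique]
      exact ⟨⟨fun a b => Subtype.ext (a.2.trans b.2.symm)⟩, ⟨⟨_, rfl⟩⟩⟩

/-- The general theorem: the permutations with fewer than `k` smaller entries to the left of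
every entry in the board and those with fewer than `k` smaller entries to the right, within the
board, are equally many. -/
theorem card_good (hloc : Loc Occ) (k : ℕ) :
    Nat.card {π : Equiv.Perm (Fin n) // Good Occ (· < ·) k π} =
      Nat.card {π : Equiv.Perm (Fin n) // Good Occ (fun c' c => c < c') k π} := by
  classical
  have h1 : ∀ (rel : Fin n → Fin n → Prop),
      Nat.card {π : Equiv.Perm (Fin n) // Good Occ rel k π} =
        ∑ κ : Fin n → Option (Fin n),
          Nat.card {π : Equiv.Perm (Fin n) // key Occ π = κ ∧ Good Occ rel k π} := by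
    intro rel
    rw [← Nat.card_sigma]
    apply Nat.card_congr
    exact
      { toFun := fun π => ⟨key Occ π.1, π.1, rfl, π.2⟩
        invFun := fun x => ⟨x.2.1, x.2.2.2⟩
        left_inv := fun π => rfl
        right_inv := by
          rintro ⟨κ, π, rfl, h⟩
          rfl }
  rw [h1, h1]
  apply Finset.sum_congr rfl
  intro κ _
  by_cases hκ : ∃ π0, key Occ π0 = κ
  · obtain ⟨π0, rfl⟩ := hκ
    have hconv : ∀ (S : Finset (Fin n)) (p : Fin n → Prop),
        Nat.card {c : Fin n // c ∈ S ∧ p c} = (S.filter p).card := by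
      intro S p
      rw [← Nat.card_eq_finsetCard]
      exact Nat.card_congr (Equiv.subtypeEquivRight (fun c => (mem_filter).symm))
    rw [card_fiber hloc (· < ·) (fun c => lt_irrefl c),
      card_fiber hloc (fun c' c => c < c') (fun c => lt_irrefl c), card_step, card_step]
    · intro S k
      rw [← card_rank_gt S k]
      simp only [hconv]
      congr!
    · intro S k
      rw [← card_rank_lt S k]
      simp only [hconv]
      congr!
  · have h2 : ∀ rel : Fin n → Fin n → Prop,
        Nat.card {π : Equiv.Perm (Fin n) // key Occ π = κ ∧ Good Occ rel k π} = 0 := by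
      intro rel
      have : IsEmpty {π : Equiv.Perm (Fin n) // key Occ π = κ ∧ Good Occ rel k π} :=
        ⟨fun π => hκ ⟨π.1, π.2.1⟩⟩
      exact Nat.card_of_isEmpty
    rw [h2, h2]

end Fiber

/-! ### Patterns -/

section Patterns

variable {n : ℕ}

theorem contains_iff {k : ℕ} {p : Fin k → ℕ} (hp : Function.Injective p)
    (π : Equiv.Perm (Fin n)) :
    Contains p π ↔ ∃ f : Fin k → Fin n, StrictMono f ∧ ∀ a b, p a < p b → π (f a) < π (f b) := by
  constructor
  · rintro ⟨f, hf, h⟩
    exact ⟨f, hf, fun a b hab => (h a b).2 hab⟩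
  · rintro ⟨f, hf, h⟩
    refine ⟨f, hf, fun a b => ⟨fun hab => ?_, h a b⟩⟩
    rcases lt_trichotomy (p a) (p b) with h1 | h1 | h1
    · exact h1
    · rw [hp h1] at hab
      exact absurd hab (lt_irrefl _)
    · exact absurd (h b a h1) hab.asymm

/-- reversal of the permutation -/
theorem contains_rev {k : ℕ} (p : Fin k → ℕ) (π : Equiv.Perm (Fin n)) :
    Contains p (Fin.revPerm.trans π) ↔ Contains (p ∘ Fin.rev) π := by
  constructor
  · rintro ⟨f, hf, h⟩
    refine ⟨fun a => (f a.rev).rev, fun a b hab => ?_, fun a b => ?_⟩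
    · exact Fin.rev_lt_rev.2 (hf (Fin.rev_lt_rev.2 hab))
    · exact h a.rev b.rev
  · rintro ⟨f, hf, h⟩
    refine ⟨fun a => (f a.rev).rev, fun a b hab => ?_, fun a b => ?_⟩
    · exact Fin.rev_lt_rev.2 (hf (Fin.rev_lt_rev.2 hab))
    · have := h a.rev b.rev
      simpa using this

/-- complementation of the permutation -/
theorem contains_compl {k : ℕ} (p q : Fin k → ℕ) (hpq : ∀ a b, q a < q b ↔ p b < p a)
    (π : Equiv.Perm (Fin n)) :
    Contains p (π.trans Fin.revPerm) ↔ Contains q π := by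
  constructor
  · rintro ⟨f, hf, h⟩
    refine ⟨f, hf, fun a b => ?_⟩
    rw [hpq, ← h b a]
    simp
  · rintro ⟨f, hf, h⟩
    refine ⟨f, hf, fun a b => ?_⟩
    rw [← hpq, ← h b a]
    simp

theorem avoiders_rev {k : ℕ} (p q : Fin k → ℕ) :
    avoiders n (p ∘ Fin.rev) (q ∘ Fin.rev) = avoiders n p q := by
  unfold avoiders
  refine Nat.card_congr
    { toFun := fun π => ⟨Fin.revPerm.trans π.1, ?_⟩
      invFun := fun π => ⟨Fin.revPerm.trans π.1, ?_⟩
      left_inv := ?_
      right_inv := ?_ }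
  · rw [contains_rev, contains_rev]
    exact π.2
  · have h := π.2
    rw [← contains_rev, ← contains_rev]
    have e : Fin.revPerm.trans (Fin.revPerm.trans π.1) = π.1 := by
      ext x
      simp
    rw [e]
    exact h
  · rintro ⟨π, hπ⟩
    apply Subtype.ext
    ext x
    simp
  · rintro ⟨π, hπ⟩
    apply Subtype.ext
    ext x
    simp

theorem avoiders_compl {k : ℕ} (p q p' q' : Fin k → ℕ) (hp : ∀ a b, p' a < p' b ↔ p b < p a)
    (hq : ∀ a b, q' a < q' b ↔ q b < q a) :
    avoiders n p' q' = avoiders n p q := by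
  unfold avoiders
  refine Nat.card_congr
    { toFun := fun π => ⟨π.1.trans Fin.revPerm, ?_⟩
      invFun := fun π => ⟨π.1.trans Fin.revPerm, ?_⟩
      left_inv := ?_
      right_inv := ?_ }
  · rw [contains_compl p p' hp, contains_compl q q' hq]
    exact π.2
  · have h := π.2
    rw [← contains_compl p p' hp, ← contains_compl q q' hq]
    have e : (π.1.trans Fin.revPerm).trans Fin.revPerm = π.1 := by
      ext x
      simp
    rw [e]
    exact h
  · rintro ⟨π, hπ⟩
    apply Subtype.ext
    ext x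
    simp
  · rintro ⟨π, hπ⟩
    apply Subtype.ext
    ext x
    simp

theorem avoiders_swap {k : ℕ} (p q : Fin k → ℕ) : avoiders n p q = avoiders n q p := by
  unfold avoiders
  exact Nat.card_congr (Equiv.subtypeEquivRight (fun π => and_comm))

/-- a pattern of length five -/
theorem contains_five {p : Fin 5 → ℕ} (hp : Function.Injective p) (π : Equiv.Perm (Fin n)) :
    Contains p π ↔ ∃ x0 x1 x2 x3 x4 : Fin n, x0 < x1 ∧ x1 < x2 ∧ x2 < x3 ∧ x3 < x4 ∧
      ∀ a b, p a < p b → π (![x0, x1, x2, x3, x4] a) < π (![x0, x1, x2, x3, x4] b) := by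
  rw [contains_iff hp]
  constructor
  · rintro ⟨f, hf, h⟩
    refine ⟨f 0, f 1, f 2, f 3, f 4, hf (by decide), hf (by decide), hf (by decide),
      hf (by decide), ?_⟩
    have e : ![f 0, f 1, f 2, f 3, f 4] = f := by
      funext a
      fin_cases a <;> rfl
    rw [e]
    exact h
  · rintro ⟨x0, x1, x2, x3, x4, h0, h1, h2, h3, h⟩
    refine ⟨_, ?_, h⟩
    apply Fin.strictMono_iff_lt_succ.2
    intro i
    fin_cases i
    · exact h0
    · exact h1
    · exact h2
    · exact h3

theorem contains_12354 (π : Equiv.Perm (Fin n)) :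
    Contains ![1, 2, 3, 5, 4] π ↔ ∃ x0 x1 x2 x3 x4 : Fin n,
      x0 < x1 ∧ x1 < x2 ∧ x2 < x3 ∧ x3 < x4 ∧
      π x0 < π x1 ∧ π x1 < π x2 ∧ π x2 < π x4 ∧ π x4 < π x3 := by
  rw [contains_five (by decide)]
  constructor
  · rintro ⟨x0, x1, x2, x3, x4, h0, h1, h2, h3, h⟩
    exact ⟨x0, x1, x2, x3, x4, h0, h1, h2, h3,
      h 0 1 (by decide), h 1 2 (by decide), h 2 4 (by decide), h 4 3 (by decide)⟩
  · rintro ⟨x0, x1, x2, x3, x4, h0, h1, h2, h3, v0, v1, v2, v3⟩
    refine ⟨x0, x1, x2, x3, x4, h0, h1, h2, h3, ?_⟩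
    intro a b hab
    fin_cases a <;> fin_cases b <;> simp at hab ⊢ <;> order

theorem contains_21354 (π : Equiv.Perm (Fin n)) :
    Contains ![2, 1, 3, 5, 4] π ↔ ∃ x0 x1 x2 x3 x4 : Fin n,
      x0 < x1 ∧ x1 < x2 ∧ x2 < x3 ∧ x3 < x4 ∧
      π x1 < π x0 ∧ π x0 < π x2 ∧ π x2 < π x4 ∧ π x4 < π x3 := by
  rw [contains_five (by decide)]
  constructor
  · rintro ⟨x0, x1, x2, x3, x4, h0, h1, h2, h3, h⟩
    exact ⟨x0, x1, x2, x3, x4, h0, h1, h2, h3,
      h 1 0 (by decide), h 0 2 (by decide), h 2 4 (by decide), h 4 3 (by decide)⟩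
  · rintro ⟨x0, x1, x2, x3, x4, h0, h1, h2, h3, v0, v1, v2, v3⟩
    refine ⟨x0, x1, x2, x3, x4, h0, h1, h2, h3, ?_⟩
    intro a b hab
    fin_cases a <;> fin_cases b <;> simp at hab ⊢ <;> order

theorem contains_32154 (π : Equiv.Perm (Fin n)) :
    Contains ![3, 2, 1, 5, 4] π ↔ ∃ x0 x1 x2 x3 x4 : Fin n,
      x0 < x1 ∧ x1 < x2 ∧ x2 < x3 ∧ x3 < x4 ∧
      π x2 < π x1 ∧ π x1 < π x0 ∧ π x0 < π x4 ∧ π x4 < π x3 := by
  rw [contains_five (by decide)]
  constructor
  · rintro ⟨x0, x1, x2, x3, x4, h0, h1, h2, h3, h⟩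
    exact ⟨x0, x1, x2, x3, x4, h0, h1, h2, h3,
      h 2 1 (by decide), h 1 0 (by decide), h 0 4 (by decide), h 4 3 (by decide)⟩
  · rintro ⟨x0, x1, x2, x3, x4, h0, h1, h2, h3, v0, v1, v2, v3⟩
    refine ⟨x0, x1, x2, x3, x4, h0, h1, h2, h3, ?_⟩
    intro a b hab
    fin_cases a <;> fin_cases b <;> simp at hab ⊢ <;> order

theorem contains_31254 (π : Equiv.Perm (Fin n)) :
    Contains ![3, 1, 2, 5, 4] π ↔ ∃ x0 x1 x2 x3 x4 : Fin n,
      x0 < x1 ∧ x1 < x2 ∧ x2 < x3 ∧ x3 < x4 ∧
      π x1 < π x2 ∧ π x2 < π x0 ∧ π x0 < π x4 ∧ π x4 < π x3 := by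
  rw [contains_five (by decide)]
  constructor
  · rintro ⟨x0, x1, x2, x3, x4, h0, h1, h2, h3, h⟩
    exact ⟨x0, x1, x2, x3, x4, h0, h1, h2, h3,
      h 1 2 (by decide), h 2 0 (by decide), h 0 4 (by decide), h 4 3 (by decide)⟩
  · rintro ⟨x0, x1, x2, x3, x4, h0, h1, h2, h3, v0, v1, v2, v3⟩
    refine ⟨x0, x1, x2, x3, x4, h0, h1, h2, h3, ?_⟩
    intro a b hab
    fin_cases a <;> fin_cases b <;> simp at hab ⊢ <;> order

theorem contains_12345 (π : Equiv.Perm (Fin n)) :
    Contains ![1, 2, 3, 4, 5] π ↔ ∃ x0 x1 x2 x3 x4 : Fin n,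
      x0 < x1 ∧ x1 < x2 ∧ x2 < x3 ∧ x3 < x4 ∧
      π x0 < π x1 ∧ π x1 < π x2 ∧ π x2 < π x3 ∧ π x3 < π x4 := by
  rw [contains_five (by decide)]
  constructor
  · rintro ⟨x0, x1, x2, x3, x4, h0, h1, h2, h3, h⟩
    exact ⟨x0, x1, x2, x3, x4, h0, h1, h2, h3,
      h 0 1 (by decide), h 1 2 (by decide), h 2 3 (by decide), h 3 4 (by decide)⟩
  · rintro ⟨x0, x1, x2, x3, x4, h0, h1, h2, h3, v0, v1, v2, v3⟩
    refine ⟨x0, x1, x2, x3, x4, h0, h1, h2, h3, ?_⟩
    intro a b hab
    fin_cases a <;> fin_cases b <;> simp at hab ⊢ <;> order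

theorem contains_21345 (π : Equiv.Perm (Fin n)) :
    Contains ![2, 1, 3, 4, 5] π ↔ ∃ x0 x1 x2 x3 x4 : Fin n,
      x0 < x1 ∧ x1 < x2 ∧ x2 < x3 ∧ x3 < x4 ∧
      π x1 < π x0 ∧ π x0 < π x2 ∧ π x2 < π x3 ∧ π x3 < π x4 := by
  rw [contains_five (by decide)]
  constructor
  · rintro ⟨x0, x1, x2, x3, x4, h0, h1, h2, h3, h⟩
    exact ⟨x0, x1, x2, x3, x4, h0, h1, h2, h3,
      h 1 0 (by decide), h 0 2 (by decide), h 2 3 (by decide), h 3 4 (by decide)⟩
  · rintro ⟨x0, x1, x2, x3, x4, h0, h1, h2, h3, v0, v1, v2, v3⟩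
    refine ⟨x0, x1, x2, x3, x4, h0, h1, h2, h3, ?_⟩
    intro a b hab
    fin_cases a <;> fin_cases b <;> simp at hab ⊢ <;> order

end Patterns

/-! ### The two instances of the general theorem -/

section Instances

variable {n : ℕ}

/-- a descent pair -/
def Occ21 (π : Equiv.Perm (Fin n)) (S : Finset (Fin n)) : Prop :=
  ∃ a b, a < b ∧ S = {a, b} ∧ π b < π a

/-- an occurrence of `123` or `132` -/
def Occ3 (π : Equiv.Perm (Fin n)) (S : Finset (Fin n)) : Prop :=
  ∃ a b d, a < b ∧ b < d ∧ S = {a, b, d} ∧ π a < π b ∧ π a < π d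

theorem loc21 : Loc (n := n) Occ21 := by
  rintro π π' S h ⟨a, b, hab, rfl, hv⟩
  refine ⟨a, b, hab, rfl, ?_⟩
  rw [← h a (by simp), ← h b (by simp)]
  exact hv

theorem loc3 : Loc (n := n) Occ3 := by
  rintro π π' S h ⟨a, b, d, hab, hbd, rfl, hv, hv'⟩
  refine ⟨a, b, d, hab, hbd, rfl, ?_, ?_⟩
  · rw [← h a (by simp), ← h b (by simp)]
    exact hv
  · rw [← h a (by simp), ← h d (by simp)]
    exact hv'

theorem W21 (π : Equiv.Perm (Fin n)) (i j : Fin n) :
    W Occ21 π i j ↔ ∃ a b, i < a ∧ a < b ∧ j < π b ∧ π b < π a := by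
  constructor
  · rintro ⟨S, _, ⟨a, b, hab, rfl, hv⟩, h⟩
    exact ⟨a, b, (h a (by simp)).1, hab, (h b (by simp)).2, hv⟩
  · rintro ⟨a, b, ha, hab, hb, hv⟩
    refine ⟨{a, b}, ⟨a, by simp⟩, ⟨a, b, hab, rfl, hv⟩, ?_⟩
    intro x hx
    simp only [mem_insert, mem_singleton] at hx
    rcases hx with rfl | rfl
    · exact ⟨ha, hb.trans hv⟩
    · exact ⟨ha.trans hab, hb⟩

theorem W3 (π : Equiv.Perm (Fin n)) (i j : Fin n) :
    W Occ3 π i j ↔ ∃ a b d, i < a ∧ a < b ∧ b < d ∧ j < π a ∧ π a < π b ∧ π a < π d := by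
  constructor
  · rintro ⟨S, _, ⟨a, b, d, hab, hbd, rfl, hv, hv'⟩, h⟩
    exact ⟨a, b, d, (h a (by simp)).1, hab, hbd, (h a (by simp)).2, hv, hv'⟩
  · rintro ⟨a, b, d, ha, hab, hbd, hj, hv, hv'⟩
    refine ⟨{a, b, d}, ⟨a, by simp⟩, ⟨a, b, d, hab, hbd, rfl, hv, hv'⟩, ?_⟩
    intro x hx
    simp only [mem_insert, mem_singleton] at hx
    rcases hx with rfl | rfl | rfl
    · exact ⟨ha, hj⟩
    · exact ⟨ha.trans hab, hj.trans hv⟩
    · exact ⟨ha.trans (hab.trans hbd), hj.trans hv'⟩

theorem not_good_two {Occ : Equiv.Perm (Fin n) → Finset (Fin n) → Prop}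
    {rel : Fin n → Fin n → Prop} {π : Equiv.Perm (Fin n)} :
    ¬ Good Occ rel 2 π ↔ ∃ c c1 c2, W Occ π c (π c) ∧ c1 < c2 ∧
      (rel c1 c ∧ π c1 < π c ∧ W Occ π c1 (π c)) ∧ (rel c2 c ∧ π c2 < π c ∧ W Occ π c2 (π c)) := by
  classical
  unfold Good
  push Not
  constructor
  · rintro ⟨c, hc, h⟩
    have h' : 1 < Nat.card {c' : Fin n // rel c' c ∧ π c' < π c ∧ W Occ π c' (π c)} := h
    rw [Finite.one_lt_card_iff_nontrivial] at h'
    obtain ⟨⟨x, hx⟩, ⟨y, hy⟩, hxy⟩ := h'
    have hne : x ≠ y := fun h => hxy (Subtype.ext h)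
    rcases lt_or_gt_of_ne hne with h1 | h1
    · exact ⟨c, x, y, hc, h1, hx, hy⟩
    · exact ⟨c, y, x, hc, h1, hy, hx⟩
  · rintro ⟨c, c1, c2, hc, hlt, h1, h2⟩
    refine ⟨c, hc, ?_⟩
    change 1 < Nat.card {c' : Fin n // rel c' c ∧ π c' < π c ∧ W Occ π c' (π c)}
    rw [Finite.one_lt_card_iff_nontrivial]
    exact ⟨⟨c1, h1⟩, ⟨c2, h2⟩, fun h => hlt.ne (congrArg Subtype.val h)⟩

theorem not_good_one {Occ : Equiv.Perm (Fin n) → Finset (Fin n) → Prop}
    {rel : Fin n → Fin n → Prop} {π : Equiv.Perm (Fin n)} :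
    ¬ Good Occ rel 1 π ↔ ∃ c c1, W Occ π c (π c) ∧
      (rel c1 c ∧ π c1 < π c ∧ W Occ π c1 (π c)) := by
  classical
  unfold Good
  push Not
  constructor
  · rintro ⟨c, hc, h⟩
    have h' : 0 < Nat.card {c' : Fin n // rel c' c ∧ π c' < π c ∧ W Occ π c' (π c)} := h
    rw [Finite.card_pos_iff] at h'
    obtain ⟨⟨x, hx⟩⟩ := h'
    exact ⟨c, x, hc, hx⟩
  · rintro ⟨c, c1, hc, h1⟩
    refine ⟨c, hc, ?_⟩
    change 0 < Nat.card {c' : Fin n // rel c' c ∧ π c' < π c ∧ W Occ π c' (π c)}
    rw [Finite.card_pos_iff]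
    exact ⟨⟨c1, h1⟩⟩

theorem good_left_two (π : Equiv.Perm (Fin n)) :
    Good Occ21 (· < ·) 2 π ↔ ¬ Contains ![1, 2, 3, 5, 4] π ∧ ¬ Contains ![2, 1, 3, 5, 4] π := by
  rw [← not_iff_not, not_good_two, ← not_or, not_not, contains_12354, contains_21354]
  simp only [W21]
  constructor
  · rintro ⟨c, c1, c2, ⟨a, b, hca, hab, hcb, hba⟩, h12, ⟨h1, h1', -⟩, ⟨h2, h2', -⟩⟩
    rcases lt_trichotomy (π c1) (π c2) with h | h | h
    · exact Or.inl ⟨c1, c2, c, a, b, h12, h2, hca, hab, h, h2', hcb, hba⟩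
    · exact absurd (π.injective h) h12.ne
    · exact Or.inr ⟨c1, c2, c, a, b, h12, h2, hca, hab, h, h1', hcb, hba⟩
  · rintro (⟨c1, c2, c, a, b, h12, h2, hca, hab, h, h2', hcb, hba⟩ |
      ⟨c1, c2, c, a, b, h12, h2, hca, hab, h, h1', hcb, hba⟩)
    · exact ⟨c, c1, c2, ⟨a, b, hca, hab, hcb, hba⟩, h12,
        ⟨h12.trans h2, h.trans h2', a, b, h12.trans (h2.trans hca), hab, hcb, hba⟩,
        ⟨h2, h2', a, b, h2.trans hca, hab, hcb, hba⟩⟩
    · exact ⟨c, c1, c2, ⟨a, b, hca, hab, hcb, hba⟩, h12,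
        ⟨h12.trans h2, h1', a, b, h12.trans (h2.trans hca), hab, hcb, hba⟩,
        ⟨h2, h.trans h1', a, b, h2.trans hca, hab, hcb, hba⟩⟩

theorem good_right_two (π : Equiv.Perm (Fin n)) :
    Good Occ21 (fun c' c => c < c') 2 π ↔
      ¬ Contains ![3, 2, 1, 5, 4] π ∧ ¬ Contains ![3, 1, 2, 5, 4] π := by
  rw [← not_iff_not, not_good_two, ← not_or, not_not, contains_32154, contains_31254]
  simp only [W21]
  constructor
  · rintro ⟨c, c1, c2, -, h12, ⟨h1, h1', -⟩, ⟨h2, h2', a, b, hca, hab, hcb, hba⟩⟩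
    rcases lt_trichotomy (π c1) (π c2) with h | h | h
    · exact Or.inr ⟨c, c1, c2, a, b, h1, h12, hca, hab, h, h2', hcb, hba⟩
    · exact absurd (π.injective h) h12.ne
    · exact Or.inl ⟨c, c1, c2, a, b, h1, h12, hca, hab, h, h1', hcb, hba⟩
  · rintro (⟨c, c1, c2, a, b, h1, h12, hca, hab, h, h1', hcb, hba⟩ |
      ⟨c, c1, c2, a, b, h1, h12, hca, hab, h, h2', hcb, hba⟩)
    · exact ⟨c, c1, c2, ⟨a, b, h1.trans (h12.trans hca), hab, hcb, hba⟩, h12,
        ⟨h1, h1', a, b, h12.trans hca, hab, hcb, hba⟩,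
        ⟨h1.trans h12, h.trans h1', a, b, hca, hab, hcb, hba⟩⟩
    · exact ⟨c, c1, c2, ⟨a, b, h1.trans (h12.trans hca), hab, hcb, hba⟩, h12,
        ⟨h1, h.trans h2', a, b, h12.trans hca, hab, hcb, hba⟩,
        ⟨h1.trans h12, h2', a, b, hca, hab, hcb, hba⟩⟩

theorem good_left_one (π : Equiv.Perm (Fin n)) :
    Good Occ3 (· < ·) 1 π ↔ ¬ Contains ![1, 2, 3, 4, 5] π ∧ ¬ Contains ![1, 2, 3, 5, 4] π := by
  rw [← not_iff_not, not_good_one, ← not_or, not_not, contains_12345, contains_12354]
  simp only [W3]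
  constructor
  · rintro ⟨c, c1, ⟨a, b, d, hca, hab, hbd, hj, hv, hv'⟩, h1, h1', -⟩
    rcases lt_trichotomy (π b) (π d) with h | h | h
    · exact Or.inl ⟨c1, c, a, b, d, h1, hca, hab, hbd, h1', hj, hv, h⟩
    · exact absurd (π.injective h) hbd.ne
    · exact Or.inr ⟨c1, c, a, b, d, h1, hca, hab, hbd, h1', hj, hv', h⟩
  · rintro (⟨c1, c, a, b, d, h1, hca, hab, hbd, h1', hj, hv, h⟩ |
      ⟨c1, c, a, b, d, h1, hca, hab, hbd, h1', hj, hv', h⟩)
    · exact ⟨c, c1, ⟨a, b, d, hca, hab, hbd, hj, hv, hv.trans h⟩, h1, h1',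
        a, b, d, h1.trans hca, hab, hbd, hj, hv, hv.trans h⟩
    · exact ⟨c, c1, ⟨a, b, d, hca, hab, hbd, hj, hv'.trans h, hv'⟩, h1, h1',
        a, b, d, h1.trans hca, hab, hbd, hj, hv'.trans h, hv'⟩

theorem good_right_one (π : Equiv.Perm (Fin n)) :
    Good Occ3 (fun c' c => c < c') 1 π ↔
      ¬ Contains ![2, 1, 3, 4, 5] π ∧ ¬ Contains ![2, 1, 3, 5, 4] π := by
  rw [← not_iff_not, not_good_one, ← not_or, not_not, contains_21345, contains_21354]
  simp only [W3]
  constructor
  · rintro ⟨c, c1, -, h1, h1', a, b, d, hca, hab, hbd, hj, hv, hv'⟩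
    rcases lt_trichotomy (π b) (π d) with h | h | h
    · exact Or.inl ⟨c, c1, a, b, d, h1, hca, hab, hbd, h1', hj, hv, h⟩
    · exact absurd (π.injective h) hbd.ne
    · exact Or.inr ⟨c, c1, a, b, d, h1, hca, hab, hbd, h1', hj, hv', h⟩
  · rintro (⟨c, c1, a, b, d, h1, hca, hab, hbd, h1', hj, hv, h⟩ |
      ⟨c, c1, a, b, d, h1, hca, hab, hbd, h1', hj, hv', h⟩)
    · exact ⟨c, c1, ⟨a, b, d, h1.trans hca, hab, hbd, hj, hv, hv.trans h⟩, h1, h1',
        a, b, d, hca, hab, hbd, hj, hv, hv.trans h⟩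
    · exact ⟨c, c1, ⟨a, b, d, h1.trans hca, hab, hbd, hj, hv'.trans h, hv'⟩, h1, h1',
        a, b, d, hca, hab, hbd, hj, hv'.trans h, hv'⟩

/-- `{12354, 21354}` and `{32154, 31254}` are Wilf-equivalent -/
theorem step_one (n : ℕ) : avoiders n ![3, 2, 1, 5, 4] ![3, 1, 2, 5, 4] =
    avoiders n ![1, 2, 3, 5, 4] ![2, 1, 3, 5, 4] := by
  have h := card_good (n := n) loc21 2
  simp only [good_left_two, good_right_two] at h
  exact h.symm

/-- `{12345, 12354}` and `{21345, 21354}` are Wilf-equivalent -/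
theorem step_two (n : ℕ) : avoiders n ![1, 2, 3, 4, 5] ![1, 2, 3, 5, 4] =
    avoiders n ![2, 1, 3, 4, 5] ![2, 1, 3, 5, 4] := by
  have h := card_good (n := n) loc3 1
  simp only [good_left_one, good_right_one] at h
  exact h

end Instances

/-- `{45123, 45213}` and `{12345, 12354}` are Wilf-equivalent: for every `n` the number of
permutations of length `n` that avoid both `45123` and `45213` is the number of
permutations of length `n` that avoid both `12345` and `12354`. -/
theorem result (n : ℕ) :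
    avoiders n ![4, 5, 1, 2, 3] ![4, 5, 2, 1, 3] = avoiders n ![1, 2, 3, 4, 5] ![1, 2, 3, 5, 4] := by
  -- reversal
  have h1 : avoiders n ![4, 5, 1, 2, 3] ![4, 5, 2, 1, 3] =
      avoiders n ![3, 2, 1, 5, 4] ![3, 1, 2, 5, 4] := by
    rw [← avoiders_rev ![3, 2, 1, 5, 4] ![3, 1, 2, 5, 4]]
    congr 1
    · funext a
      fin_cases a <;> rfl
    · funext a
      fin_cases a <;> rfl
  -- reversal and complement
  have h2 : avoiders n ![1, 2, 3, 5, 4] ![2, 1, 3, 5, 4] =
      avoiders n ![2, 1, 3, 4, 5] ![2, 1, 3, 5, 4] := by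
    rw [← avoiders_rev ![2, 1, 3, 4, 5] ![2, 1, 3, 5, 4]]
    apply avoiders_compl
    · decide
    · decide
  rw [h1, step_one, h2, step_two]

end Pool.Agent.Results.MP_b2be16_co.WilfEquivalence
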